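import Mathlib
import Pool.Agent.R389.Defs

/-!
# Hecke characters of elliptic curves with complex multiplication by `K`: Artin twists over `K`
-/

set_option autoImplicit false

open NumberField Filter Topology IsDedekindDomain

namespace Pool.Agent.U213.KV

/-- `a_v`: the norm `N v` minus the number of the solutions of the equation `W` over the residue field of
`v` -/
noncomputable def av {K : Type} [Field K] [NumberField K] (W : WeierstrassCurve ℤ)
    (v : HeightOneSpectrum (𝓞 K)) : ℤ :=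
  Nat.card (𝓞 K ⧸ v.asIdeal) - Nat.card {P : (𝓞 K ⧸ v.asIdeal) × (𝓞 K ⧸ v.asIdeal) //
    (W.map (Int.castRingHom (𝓞 K ⧸ v.asIdeal))).toAffine.Equation P.1 P.2}

/-- An elliptic curve `A` over `ℚ` with complex multiplication by the imaginary quadratic field `K`, its
Hecke character, and an embedding in `ℂ` of the number field `F`, which is Galois over `K`. -/
structure Data (K F : Type) [Field K] [NumberField K] [Field F] [NumberField F] [Algebra K F]
    [IsGalois K F] where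
  finrank : Module.finrank ℚ K = 2
  /-- an embedding of `F` in `ℂ` -/
  ι : F →+* ℂ
  /-- the elliptic curve `A` : a Weierstrass equation over `ℤ` -/
  W : WeierstrassCurve ℤ
  Δ_ne : W.Δ ≠ 0
  /-- the lattice of the periods of `dx / (2 y + a₁ x + a₃)` -/
  L : PeriodPair
  g₂_eq : 12 * L.g₂ = W.c₄
  g₃_eq : 216 * L.g₃ = W.c₆
  /-- complex multiplication by an element of `K` which is not real -/
  cm : ∃ a : K, (ι (algebraMap K F a)).im ≠ 0 ∧
    ∀ z ∈ L.lattice, ι (algebraMap K F a) * z ∈ L.lattice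
  /-- a nonzero period -/
  Ω : ℂ
  Ω_mem : Ω ∈ L.lattice
  Ω_ne : Ω ≠ 0
  /-- an element of `F` with nonzero resolvents, for example a generator of a normal basis over `K` -/
  x : F
  x_ne : ∀ lam : (F ≃ₐ[K] F) →* ℂˣ, ∑ᶠ σ, (lam σ : ℂ) * ι (σ x) ≠ 0
  /-- a finite set of primes of `K` which contains those at which the equation has bad reduction and
  those above the prime numbers which ramify in `F` -/
  S : Finset (HeightOneSpectrum (𝓞 K))
  bad : ∀ v : HeightOneSpectrum (𝓞 K), (W.Δ : 𝓞 K) ∈ v.asIdeal → v ∈ S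
  ram : ∀ v : HeightOneSpectrum (𝓞 K), ((discr F : ℤ) : 𝓞 K) ∈ v.asIdeal → v ∈ S
  /-- an arithmetic Frobenius at `v`: for a prime ideal `Q` above `v` it satisfies
  `Frob_v y ≡ y ^ (N v)` modulo `Q` for all integers `y` of `F` -/
  frob : HeightOneSpectrum (𝓞 K) → (F ≃ₐ[K] F)
  isFrob : ∀ v ∉ S, ∃ Q : Ideal (𝓞 F), Q.IsPrime ∧ v.asIdeal.map (algebraMap (𝓞 K) (𝓞 F)) ≤ Q ∧
    ∀ y : 𝓞 F, ∃ z ∈ Q, frob v (y : F) = (y : F) ^ Nat.card (𝓞 K ⧸ v.asIdeal) + (z : F)
  /-- the Hecke character `φ` with `L(A / K, s) = L(φ, s) L(φ̄, s)`: the number `φ(v)` in `K` and its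
  conjugate are the eigenvalues of Frobenius at `v`, and the conjugate is in `v` -/
  φ : HeightOneSpectrum (𝓞 K) → 𝓞 K
  φ_norm : ∀ v ∉ S, Algebra.norm ℤ (φ v) = Nat.card (𝓞 K ⧸ v.asIdeal)
  φ_trace : ∀ v ∉ S, Algebra.trace ℤ (𝓞 K) (φ v) = av W v
  φ_conj : ∀ v ∉ S, ∃ y ∈ v.asIdeal, φ v * y = (Nat.card (𝓞 K ⧸ v.asIdeal) : 𝓞 K)

namespace Data

variable {K F : Type} [Field K] [NumberField K] [Field F] [NumberField F] [Algebra K F]
  [IsGalois K F] (D : Data K F)

/-- the Galois group of `F` over `K` -/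
abbrev G (_ : Data K F) : Type := F ≃ₐ[K] F

/-- the embedding of `K` in `ℂ` -/
noncomputable def ι₀ : K →+* ℂ := D.ι.comp (algebraMap K F)

/-- the norm of `v` -/
noncomputable def N (_ : Data K F) (v : HeightOneSpectrum (𝓞 K)) : ℂ := Nat.card (𝓞 K ⧸ v.asIdeal)

/-- the primes outside `S` -/
abbrev Pr : Type := {v : HeightOneSpectrum (𝓞 K) // v ∉ D.S}

/-- **The twisted L-function.** `ℓ` is the function `L(φ ⊗ f, s)` for the character `f` of `G`, without
the Euler factors at the primes in `S`: it is meromorphic on `ℂ`, and for `Re s > 3/2` it is the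
exponential of the sum of `φ(v) ^ k f(Frob_v ^ k) (N v) ^ (-k s) / k` over the primes `v ∉ S` of `K` and
the integers `k ≥ 1`. -/
def IsL (f : (F ≃ₐ[K] F) → ℂ) (ℓ : ℂ → ℂ) : Prop :=
  (∀ s, MeromorphicAt ℓ s) ∧ ∀ s : ℂ, 3 / 2 < s.re → ∃ z : ℂ, ℓ s = Complex.exp z ∧
    HasSum (fun q : D.Pr × ℕ => D.ι₀ (D.φ q.1) ^ (q.2 + 1) * f (D.frob q.1 ^ (q.2 + 1)) *
      D.N q.1 ^ (-((q.2 + 1 : ℕ) : ℂ) * s) / ((q.2 + 1 : ℕ) : ℂ)) z

/-- the resolvent of a linear character of `G` -/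
noncomputable def R (lam : (F ≃ₐ[K] F) → ℂ) : ℂ := ∑ᶠ σ, lam σ * D.ι (σ D.x)

/-- **Deligne's period** `Ω ^ n R(det ρ)` -/
noncomputable def period {n : ℕ} (ρ : (F ≃ₐ[K] F) →* Matrix (Fin n) (Fin n) ℂ) : ℂ :=
  D.R (fun σ => (ρ σ).det) * D.Ω ^ n

/-- the embeddings in `ℂ` of the field `E`, which contains `K` by `j`, that extend the one of `K` -/
def Over {E : Type} [Field E] (j : K →+* E) (τ : E →+* ℂ) : Prop := ∀ y, τ (j y) = D.ι₀ y

/-- **Deligne's conjecture** for `φ ⊗ ρ` at `s = 1`, for a representation `ρ` of `G` over the number field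
`E`, which contains `K`: for some `e ∈ E` and all embeddings `τ` of `E` in `ℂ` over `K` the number
`L(φ ⊗ τρ, 1)` is `τ(e)` times the period of `τρ`. -/
def Deligne {E : Type} [Field E] (j : K →+* E) {n : ℕ}
    (ρ : (F ≃ₐ[K] F) →* Matrix (Fin n) (Fin n) E) : Prop :=
  ∃ e : E, ∀ τ : E →+* ℂ, D.Over j τ → ∃ ℓ : ℂ → ℂ, D.IsL (fun σ => τ (ρ σ).trace) ℓ ∧
    Tendsto ℓ (𝓝[≠] 1) (𝓝 (τ e * D.period (τ.mapMatrix.toMonoidHom.comp ρ)))

end Data

/-- The known case (Blasius, Harder, Kings–Sprang, Kufner: Deligne's conjecture for the critical values of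
Hecke L-functions): Deligne's conjecture holds for `φ ⊗ ρ` for the representations `ρ` induced from
linear characters `ψ` of subgroups `U` of `G`. -/
def MonomialTheorem : Prop :=
  ∀ (K F : Type) [Field K] [NumberField K] [Field F] [NumberField F] [Algebra K F] [IsGalois K F]
    (D : Data K F) (E : Type) [Field E] [NumberField E] (j : K →+* E)
    (U : Subgroup (F ≃ₐ[K] F)) (ψ : U →* Eˣ) (n : ℕ)
    (ρ : (F ≃ₐ[K] F) →* Matrix (Fin n) (Fin n) E),
    (∀ σ, (ρ σ).trace = R389.ind U (fun u => ((ψ u : Eˣ) : E)) σ) → D.Deligne j ρ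

end Pool.Agent.U213.KV
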