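import Mathlib
import Pool.Agent.R389.Defs
import Pool.Agent.U213.EC.Trans

/-!
# Deligne's conjecture for the embeddings over an imaginary quadratic field
-/

set_option autoImplicit false
set_option linter.unusedSectionVars false

open Filter Topology

namespace Pool.Agent.U213.KV

open Pool.Agent.R389 Pool.Agent.H302R2 Pool.Agent.H541R3.ART Pool.Agent.W446.AS
open Pool.Agent.U213.EC (irr_transfer)

section conj

lemma conj_tendsto : Tendsto (starRingEnd ℂ) (𝓝[≠] (1 : ℂ)) (𝓝[≠] (1 : ℂ)) := by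
  rw [tendsto_nhdsWithin_iff]
  constructor
  · have h1 : Tendsto (starRingEnd ℂ) (𝓝 (1 : ℂ)) (𝓝 (starRingEnd ℂ 1)) :=
      Complex.continuous_conj.tendsto 1
    rw [map_one] at h1
    exact h1.mono_left nhdsWithin_le_nhds
  · filter_upwards [self_mem_nhdsWithin] with s hs h
    apply hs
    have h2 : starRingEnd ℂ (starRingEnd ℂ s) = starRingEnd ℂ 1 := congrArg _ h
    rw [Complex.conj_conj, map_one] at h2
    exact h2

lemma mero_conj {f : ℂ → ℂ} (hf : MeromorphicAt f 1) :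
    MeromorphicAt (fun s => starRingEnd ℂ (f (starRingEnd ℂ s))) 1 := by
  obtain ⟨n, hn⟩ := hf
  refine ⟨n, ?_⟩
  have h1 : (fun z : ℂ => (z - 1) ^ n • starRingEnd ℂ (f (starRingEnd ℂ z)))
      = (starRingEnd ℂ) ∘ (fun z : ℂ => (z - 1) ^ n • f z) ∘ (starRingEnd ℂ) := by
    funext z
    simp
  rw [h1, Complex.analyticAt_iff_eventually_differentiableAt]
  have h2 := Complex.analyticAt_iff_eventually_differentiableAt.mp hn
  have h3 : Tendsto (starRingEnd ℂ) (𝓝 (1 : ℂ)) (𝓝 (1 : ℂ)) := by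
    have h4 : Tendsto (starRingEnd ℂ) (𝓝 (1 : ℂ)) (𝓝 (starRingEnd ℂ 1)) :=
      Complex.continuous_conj.tendsto 1
    rwa [map_one] at h4
  filter_upwards [h3.eventually h2] with z hz
  have h4 := hz.conj_conj
  rwa [Complex.conj_conj] at h4

lemma order_conj {f : ℂ → ℂ} (hf : MeromorphicAt f 1) (h : meromorphicOrderAt f 1 ≠ ⊤) :
    meromorphicOrderAt (fun s => starRingEnd ℂ (f (starRingEnd ℂ s))) 1 ≠ ⊤ := by
  rw [meromorphicOrderAt_ne_top_iff_eventually_ne_zero (mero_conj hf)]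
  have h1 := (meromorphicOrderAt_ne_top_iff_eventually_ne_zero hf).mp h
  filter_upwards [conj_tendsto.eventually h1] with s hs
  exact (map_ne_zero _).mpr hs

end conj

variable {G : Type} [Group G] [Finite G]

/-- the complex conjugate function -/
noncomputable def st (χ : G → ℂ) : G → ℂ := fun g => starRingEnd ℂ (χ g)

lemma st_st (χ : G → ℂ) : st (st χ) = χ := by
  funext g
  simp [st]

lemma irr_st {χ : G → ℂ} (hχ : χ ∈ Irr G) : st χ ∈ Irr G := by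
  have h0 : Monoid.exponent G ≠ 0 := Monoid.exponent_ne_zero_of_finite
  obtain ⟨F, h1, h2⟩ := irr_transfer (Complex.isPrimitiveRoot_exp _ h0) (RingHom.id ℂ) hχ
  have h3 := h2 (starRingEnd ℂ)
  have h4 : (fun g => starRingEnd ℂ (F g)) = st χ := by
    funext g
    have h5 : F g = χ g := h1 g
    rw [h5]
    rfl
  rwa [h4] at h3

lemma prod_st (f : (G → ℂ) → ℂ) : ∏ᶠ χ ∈ Irr G, f (st χ) = ∏ᶠ χ ∈ Irr G, f χ := by
  rw [finprod_irr (fun χ => f (st χ)), finprod_irr f]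
  exact Finset.prod_nbij' st st (fun χ hχ => mem_irrF.mpr (irr_st (mem_irrF.mp hχ)))
    (fun χ hχ => mem_irrF.mpr (irr_st (mem_irrF.mp hχ))) (fun χ _ => st_st χ)
    (fun χ _ => st_st χ) (fun χ _ => rfl)

lemma sum_st (f : (G → ℂ) → ℂ) : ∑ᶠ χ ∈ Irr G, f (st χ) = ∑ᶠ χ ∈ Irr G, f χ := by
  rw [finsum_irr (fun χ => f (st χ)), finsum_irr f]
  exact Finset.sum_nbij' st st (fun χ hχ => mem_irrF.mpr (irr_st (mem_irrF.mp hχ)))
    (fun χ hχ => mem_irrF.mpr (irr_st (mem_irrF.mp hχ))) (fun χ _ => st_st χ)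
    (fun χ _ => st_st χ) (fun χ _ => rfl)

lemma decomp_st {f : G → ℂ} {m : (G → ℂ) → ℕ} (h : IsDecomp f m) :
    IsDecomp (fun g => starRingEnd ℂ (f g)) (fun χ => m (st χ)) := by
  intro g
  change starRingEnd ℂ (f g) = ∑ᶠ χ ∈ Irr G, (m (st χ) : ℂ) * χ g
  have h1 : f g = ∑ᶠ χ ∈ Irr G, (m χ : ℂ) * χ g := h g
  rw [h1, finsum_irr (fun χ => (m χ : ℂ) * χ g), map_sum, ← sum_st,
    finsum_irr (fun χ => (m (st (st χ)) : ℂ) * (st χ) g)]
  refine Finset.sum_congr rfl fun χ _ => ?_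
  rw [st_st, map_mul, map_natCast]
  rfl

variable {E : Type} [Field E] (T : Set (E →+* ℂ))

/-- the conjecture for the embeddings in `T` -/
def DelT (ℓ : (G → ℂ) → ℂ → ℂ) (P : (G → ℂ) → ℂ) (f : G → E) : Prop :=
  ∃ e : E, ∀ τ ∈ T, ∀ m : (G → ℂ) → ℕ, IsDecomp (fun g => τ (f g)) m →
    Tendsto (fun s => ∏ᶠ χ ∈ Irr G, ℓ χ s ^ m χ) (𝓝[≠] 1) (𝓝 (τ e * ∏ᶠ χ ∈ Irr G, P χ ^ m χ))

open Classical in
/-- the L-functions for all embeddings -/
noncomputable def Lc (ℓ : (G → ℂ) → ℂ → ℂ) (τ : E →+* ℂ) (χ : G → ℂ) (s : ℂ) : ℂ :=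
  if τ ∈ T then ℓ χ s else starRingEnd ℂ (ℓ (st χ) (starRingEnd ℂ s))

open Classical in
/-- the periods for all embeddings -/
noncomputable def Pc (P : (G → ℂ) → ℂ) (τ : E →+* ℂ) (χ : G → ℂ) : ℂ :=
  if τ ∈ T then P χ else starRingEnd ℂ (P (st χ))

variable {T}

lemma Lc_mem {ℓ : (G → ℂ) → ℂ → ℂ} {τ : E →+* ℂ} (h : τ ∈ T) (χ : G → ℂ) :
    Lc T ℓ τ χ = ℓ χ := by
  funext s
  rw [Lc, if_pos h]

lemma Lc_not {ℓ : (G → ℂ) → ℂ → ℂ} {τ : E →+* ℂ} (h : τ ∉ T) (χ : G → ℂ) :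
    Lc T ℓ τ χ = fun s => starRingEnd ℂ (ℓ (st χ) (starRingEnd ℂ s)) := by
  funext s
  rw [Lc, if_neg h]

lemma Lc_ok {ℓ : (G → ℂ) → ℂ → ℂ}
    (hL : ∀ χ ∈ Irr G, MeromorphicAt (ℓ χ) 1 ∧ meromorphicOrderAt (ℓ χ) 1 ≠ ⊤) (τ : E →+* ℂ) :
    ∀ χ ∈ Irr G, MeromorphicAt (Lc T ℓ τ χ) 1 ∧ meromorphicOrderAt (Lc T ℓ τ χ) 1 ≠ ⊤ := by
  intro χ hχ
  by_cases h : τ ∈ T
  · rw [Lc_mem h]
    exact hL χ hχ
  · rw [Lc_not h]
    obtain ⟨h1, h2⟩ := hL _ (irr_st hχ)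
    exact ⟨mero_conj h1, order_conj h1 h2⟩

lemma Pc_ok {P : (G → ℂ) → ℂ} (hP : ∀ χ ∈ Irr G, P χ ≠ 0) (τ : E →+* ℂ) :
    ∀ χ ∈ Irr G, Pc T P τ χ ≠ 0 := by
  intro χ hχ
  rw [Pc]
  split_ifs with h
  · exact hP χ hχ
  · exact (map_ne_zero _).mpr (hP _ (irr_st hχ))

/-- the conjecture for the embeddings in `T` is the one for all embeddings -/
theorem delT_iff (hT : ∀ τ : E →+* ℂ, τ ∉ T → (starRingEnd ℂ).comp τ ∈ T)
    {ℓ : (G → ℂ) → ℂ → ℂ} {P : (G → ℂ) → ℂ} {f : G → E} :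
    DelT T ℓ P f ↔ R389.Deligne (Lc T ℓ) (Pc T P) 1 f := by
  constructor
  · rintro ⟨e, he⟩
    refine ⟨e, fun τ m hm => ?_⟩
    by_cases h : τ ∈ T
    · have h1 := he τ h m hm
      have h2 : ∀ χ, Pc T P τ χ = P χ := fun χ => by rw [Pc, if_pos h]
      simp only [Lc_mem h, h2]
      exact h1
    · have h1 := he _ (hT τ h) _ (decomp_st hm)
      have h2 := ((Complex.continuous_conj.tendsto _).comp h1).comp conj_tendsto
      have h3 : starRingEnd ℂ (((starRingEnd ℂ).comp τ) e * ∏ᶠ χ ∈ Irr G, P χ ^ m (st χ))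
          = τ e * ∏ᶠ χ ∈ Irr G, Pc T P τ χ ^ m χ := by
        rw [map_mul, RingHom.comp_apply, Complex.conj_conj]
        congr 1
        rw [← prod_st (fun χ => Pc T P τ χ ^ m χ), finprod_irr (fun χ => P χ ^ m (st χ)), map_prod,
          finprod_irr (fun χ => Pc T P τ (st χ) ^ m (st χ))]
        refine Finset.prod_congr rfl fun χ _ => ?_
        rw [map_pow, Pc, if_neg h, st_st]
      rw [h3] at h2
      refine h2.congr fun s => ?_
      change starRingEnd ℂ (∏ᶠ χ ∈ Irr G, ℓ χ (starRingEnd ℂ s) ^ m (st χ)) = _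
      rw [← prod_st (fun χ => Lc T ℓ τ χ s ^ m χ),
        finprod_irr (fun χ => ℓ χ (starRingEnd ℂ s) ^ m (st χ)), map_prod,
        finprod_irr (fun χ => Lc T ℓ τ (st χ) s ^ m (st χ))]
      refine Finset.prod_congr rfl fun χ _ => ?_
      rw [map_pow, Lc, if_neg h, st_st]
  · rintro ⟨e, he⟩
    refine ⟨e, fun τ h m hm => ?_⟩
    have h1 := he τ m hm
    have h2 : ∀ χ, Pc T P τ χ = P χ := fun χ => by rw [Pc, if_pos h]
    simp only [Lc_mem h, h2] at h1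
    exact h1

end Pool.Agent.U213.KV
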