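import Mathlib
import Pool.Agent.R389.TwoMain
import Pool.Agent.U213.EC.Desc
import Pool.Agent.U213.KV.LFun
import Pool.Agent.U213.KV.Conj

/-!
# From the monomial representations to the irreducible constituents and back
-/

set_option autoImplicit false
set_option linter.unusedSectionVars false

open Filter Topology

namespace Pool.Agent.U213.KV

open Pool.Agent.R389 Pool.Agent.H302R2 Pool.Agent.H541R3.ART Pool.Agent.W446.AS
open Pool.Agent.U213.EC (exists_matrix toRep toRep_char exists_decomp bc bc_trace bc_det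
  mono_of_virt exists_induced extend mem_of_agree)

namespace Data

variable {k F₀ : Type} [Field k] [NumberField k] [Field F₀] [NumberField F₀] [Algebra k F₀]
  [IsGalois k F₀] {D : Data k F₀}

/-- the set of the embeddings over `K` -/
def T (D : Data k F₀) {E : Type} [Field E] (j : k →+* E) : Set (E →+* ℂ) := {τ | D.Over j τ}

lemma exists_over (D : Data k F₀) {E : Type} [Field E] [NumberField E] (j : k →+* E) :
    ∃ τ, D.Over j τ := by
  let _ : Algebra k E := j.toAlgebra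
  obtain ⟨τ, hτ⟩ := extend (E := k) (E' := E) D.ι₀
  exact ⟨τ, hτ⟩

/-- the two embeddings of `K` -/
lemma conj_over (D : Data k F₀) {E : Type} [Field E] (j : k →+* E) (τ : E →+* ℂ)
    (h : τ ∉ D.T j) : (starRingEnd ℂ).comp τ ∈ D.T j := by
  classical
  have h1 : τ.comp j ≠ D.ι₀ := fun h1 => h fun y => by rw [← h1]; rfl
  have h2 : D.ι₀ ≠ (starRingEnd ℂ).comp D.ι₀ := by
    intro h2
    obtain ⟨a, ha, -⟩ := D.cm
    apply ha
    have h3 : D.ι₀ a = starRingEnd ℂ (D.ι₀ a) := by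
      conv_lhs => rw [h2]
      rfl
    exact Complex.conj_eq_iff_im.mp h3.symm
  have h3 : τ.comp j = (starRingEnd ℂ).comp D.ι₀ := by
    by_contra h3
    have h4 : Fintype.card (k →+* ℂ) = 2 := by
      rw [NumberField.Embeddings.card, D.finrank]
    have h5 : ({τ.comp j, D.ι₀, (starRingEnd ℂ).comp D.ι₀} : Finset (k →+* ℂ)).card = 3 := by
      rw [Finset.card_insert_of_notMem, Finset.card_insert_of_notMem, Finset.card_singleton]
      · simpa using h2
      · simp only [Finset.mem_insert, Finset.mem_singleton, not_or]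
        exact ⟨h1, h3⟩
    have h6 := Finset.card_le_univ ({τ.comp j, D.ι₀, (starRingEnd ℂ).comp D.ι₀} : Finset (k →+* ℂ))
    omega
  intro y
  change starRingEnd ℂ (τ (j y)) = D.ι₀ y
  have h4 : τ (j y) = starRingEnd ℂ (D.ι₀ y) := RingHom.congr_fun h3 y
  rw [h4, Complex.conj_conj]

/-- the L-functions of the virtual characters exist -/
lemma exists_isL {E : Type} [Field E] {j : k →+* E} {ζ : E}
    (hζ : IsPrimitiveRoot ζ (Monoid.exponent D.G)) (τ₀ : E →+* ℂ) (hτ₀ : D.Over j τ₀)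
    (hmon : ∀ (U : Subgroup D.G) (ψ : U →* Eˣ) (n : ℕ) (ρ : D.G →* Matrix (Fin n) (Fin n) E),
      (∀ σ, (ρ σ).trace = ind U (fun u => ((ψ u : Eˣ) : E)) σ) → D.Deligne j ρ)
    {f : D.G → ℂ} (hf : Virt f) : ∃ ℓ, D.IsL f ℓ := by
  have hf' := mono_of_virt hf
  clear hf
  have hc : CharZero E := (RingHom.charZero_iff τ₀.injective).mpr inferInstance
  induction hf' using AddSubgroup.closure_induction with
  | mem s hs =>
    obtain ⟨U, ψ, rfl, -⟩ := hs
    obtain ⟨ψE, hψE⟩ := lift_char hζ τ₀ U ψ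
    obtain ⟨n, ρ, hρ⟩ := exists_induced U ψE
    obtain ⟨e, he⟩ := hmon U ψE n ρ hρ
    obtain ⟨ℓ, h1, -⟩ := he τ₀ hτ₀
    refine ⟨ℓ, ?_⟩
    have h2 : (fun σ => τ₀ (ρ σ).trace) = ind U (fun h => ((ψ h : ℂˣ) : ℂ)) := by
      funext g
      rw [hρ, ind_map]
      congr 1
      funext u
      exact hψE u
    rwa [h2] at h1
  | zero =>
    exact ⟨_, IsL.prod (∅ : Finset ℕ) (fun _ => 0) (fun _ => 0) (fun _ _ => 1) (by simp)
      (F := 0) (by simp)⟩
  | add a b _ _ ha hb =>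
    obtain ⟨ℓ, h⟩ := ha
    obtain ⟨ℓ', h'⟩ := hb
    refine ⟨_, IsL.prod (Finset.univ : Finset Bool) (fun _ => 1) (fun i => cond i a b)
      (fun i => cond i ℓ ℓ') (fun i _ => by cases i <;> assumption) (fun g => ?_)⟩
    simp
  | neg a _ ha =>
    obtain ⟨ℓ, h⟩ := ha
    refine ⟨_, IsL.prod (Finset.univ : Finset Unit) (fun _ => -1) (fun _ => a) (fun _ => ℓ)
      (fun _ _ => h) (fun g => ?_)⟩
    simp

variable {ℓ : (D.G → ℂ) → ℂ → ℂ}

/-- the product of the L-functions of the constituents -/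
lemma isL_decomp (hℓ : ∀ χ ∈ Irr D.G, D.IsL χ (ℓ χ)) {f : D.G → ℂ} {m : (D.G → ℂ) → ℕ}
    (hm : IsDecomp f m) : D.IsL f (fun s => ∏ᶠ χ ∈ Irr D.G, ℓ χ s ^ m χ) := by
  have h1 : (fun s => ∏ᶠ χ ∈ Irr D.G, ℓ χ s ^ m χ)
      = fun s => ∏ χ ∈ irrF D.G, ℓ χ s ^ ((m χ : ℕ) : ℤ) := by
    funext s
    rw [finprod_irr (fun χ => ℓ χ s ^ m χ)]
    exact Finset.prod_congr rfl fun χ _ => by rw [zpow_natCast]
  rw [h1]
  refine IsL.prod (irrF D.G) (fun χ => ((m χ : ℕ) : ℤ)) (fun χ => χ) ℓ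
    (fun χ hχ => hℓ χ (mem_irrF.mp hχ)) fun g => ?_
  have h2 : f g = ∑ᶠ χ ∈ Irr D.G, (m χ : ℂ) * χ g := hm g
  rw [h2, finsum_irr (fun χ => (m χ : ℂ) * χ g)]
  push_cast
  rfl

/-- Deligne's conjecture in terms of the constituents -/
theorem deligne_iff {E : Type} [Field E] {j : k →+* E} (τ₀ : E →+* ℂ) (hτ₀ : D.Over j τ₀) {ζ : E}
    (hζ : IsPrimitiveRoot ζ (Monoid.exponent D.G)) (hℓ : ∀ χ ∈ Irr D.G, D.IsL χ (ℓ χ)) {n : ℕ}
    (ρ : D.G →* Matrix (Fin n) (Fin n) E) :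
    D.Deligne j ρ ↔ DelT (D.T j) ℓ D.P (fun g => (ρ g).trace) := by
  have hc : CharZero E := (RingHom.charZero_iff τ₀.injective).mpr inferInstance
  obtain ⟨u, hu0, hu⟩ := D.period_decomp j τ₀ hτ₀ hζ ρ
  constructor
  · rintro ⟨e, he⟩
    refine ⟨e / u, fun τ hτ m hm => ?_⟩
    obtain ⟨ℓ', h1, h2⟩ := he τ hτ
    have h3 := isL_decomp hℓ hm
    have h4 : τ (e / u) * ∏ᶠ χ ∈ Irr D.G, D.P χ ^ m χ = τ e * D.period (bc τ ρ) := by
      rw [hu τ hτ m hm, ← mul_assoc, ← map_mul, div_mul_cancel₀ _ hu0]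
    rw [h4]
    exact h2.congr' (h1.unique h3 1)
  · rintro ⟨e, he⟩
    refine ⟨e * u, fun τ hτ => ?_⟩
    obtain ⟨m, hm⟩ := exists_decomp (bc τ ρ)
    have h1 : (fun g => (bc τ ρ g).trace) = fun g => τ (ρ g).trace :=
      funext fun g => bc_trace τ ρ g
    rw [h1] at hm
    refine ⟨_, isL_decomp hℓ hm, ?_⟩
    have h2 := he τ hτ m hm
    have h4 : τ e * ∏ᶠ χ ∈ Irr D.G, D.P χ ^ m χ = τ (e * u) * D.period (bc τ ρ) := by
      rw [hu τ hτ m hm, map_mul]; ring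
    rw [h4] at h2
    exact h2

theorem deligne_descend {E E' : Type} [Field E] [NumberField E] [Field E'] [NumberField E']
    [Algebra E E'] {j : k →+* E} {n : ℕ} (ρ : D.G →* Matrix (Fin n) (Fin n) E)
    (h : D.Deligne ((algebraMap E E').comp j) ((algebraMap E E').mapMatrix.toMonoidHom.comp ρ)) :
    D.Deligne j ρ := by
  obtain ⟨e', he'⟩ := h
  have key : ∀ τ : E' →+* ℂ, D.Over ((algebraMap E E').comp j) τ → ∃ ℓ : ℂ → ℂ,
      D.IsL (fun σ => τ (algebraMap E E' (ρ σ).trace)) ℓ ∧ Tendsto ℓ (𝓝[≠] 1)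
        (𝓝 (τ e' * D.period (bc (τ.comp (algebraMap E E')) ρ))) := by
    intro τ hτ
    obtain ⟨ℓ, h1, h2⟩ := he' τ hτ
    refine ⟨ℓ, ?_, ?_⟩
    · convert h1 using 4 with σ
      change _ = ((ρ σ).map (algebraMap E E')).trace
      rw [Matrix.trace, Matrix.trace, map_sum]
      rfl
    · convert h2 using 4
      exact MonoidHom.ext fun g => Matrix.ext fun i j => rfl
  -- embeddings over `K`
  have hover : ∀ τ τ' : E' →+* ℂ, (∀ x : E, τ (algebraMap E E' x) = τ' (algebraMap E E' x)) →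
      D.Over ((algebraMap E E').comp j) τ → τ e' = τ' e' := by
    intro τ τ' hττ' hτ
    have hτ' : D.Over ((algebraMap E E').comp j) τ' := fun y => by
      rw [← hτ y]
      exact (hττ' _).symm
    obtain ⟨ℓ, h1, h2⟩ := key τ hτ
    obtain ⟨ℓ', h1', h2'⟩ := key τ' hτ'
    have h3 : τ.comp (algebraMap E E') = τ'.comp (algebraMap E E') := RingHom.ext hττ'
    have h4 : (fun σ => τ' (algebraMap E E' (ρ σ).trace))
        = fun σ => τ (algebraMap E E' (ρ σ).trace) := funext fun σ => (hττ' _).symm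
    rw [h4] at h1'
    rw [← h3] at h2'
    have h5 := tendsto_nhds_unique (h2.congr' (h1.unique h1' 1)) h2'
    exact mul_right_cancel₀ (D.period_ne _) h5
  obtain ⟨e, he⟩ := mem_of_agree (E := E) e' fun τ τ' hττ' => by
    by_cases hτ : D.Over ((algebraMap E E').comp j) τ
    · exact hover τ τ' hττ' hτ
    · have h1 := hover ((starRingEnd ℂ).comp τ) ((starRingEnd ℂ).comp τ')
        (fun x => congrArg (starRingEnd ℂ) (hττ' x)) (D.conj_over _ τ hτ)
      exact (starRingEnd ℂ).injective h1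
  refine ⟨e, fun τ hτ => ?_⟩
  obtain ⟨τ', hτ'⟩ := extend (E' := E') τ
  obtain ⟨ℓ, h1, h2⟩ := key τ' fun y => by
    change τ' (algebraMap E E' (j y)) = _
    rw [hτ', hτ y]
  refine ⟨ℓ, ?_, ?_⟩
  · simp only [hτ'] at h1
    exact h1
  · have h3 : τ'.comp (algebraMap E E') = τ := RingHom.ext hτ'
    rw [h3, ← he, hτ'] at h2
    exact h2

/-- It is enough to consider coefficient fields which contain enough roots of unity. -/
theorem of_large (h : ∀ (E : Type) [Field E] [NumberField E] (j : k →+* E) (ζ : E),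
      IsPrimitiveRoot ζ (Monoid.exponent D.G) → ∀ (n : ℕ) (ρ : D.G →* Matrix (Fin n) (Fin n) E),
      D.Deligne j ρ) (E : Type) [Field E] [NumberField E] (j : k →+* E) (n : ℕ)
    (ρ : D.G →* Matrix (Fin n) (Fin n) E) : D.Deligne j ρ := by
  have : NeZero (Monoid.exponent D.G) := ⟨D.exp_pos.ne'⟩
  have hN : NumberField (CyclotomicField (Monoid.exponent D.G) E) :=
    IsCyclotomicExtension.numberField {Monoid.exponent D.G} E _
  exact deligne_descend (E' := CyclotomicField (Monoid.exponent D.G) E) ρ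
    (h _ _ _ (IsCyclotomicExtension.zeta_spec (Monoid.exponent D.G) E _) _ _)

/-- **The bridge.** -/
theorem bridge (hM : MonomialTheorem) (D : Data k F₀)
    (h : ∀ (E : Type) [Field E] [NumberField E] (j : k →+* E) (ζ : E),
      IsPrimitiveRoot ζ (Monoid.exponent D.G) →
      ∀ ℓ : (D.G → ℂ) → ℂ → ℂ, (∀ χ ∈ Irr D.G, D.IsL χ (ℓ χ)) →
      (∀ χ ∈ Irr D.G, MeromorphicAt (ℓ χ) 1 ∧ meromorphicOrderAt (ℓ χ) 1 ≠ ⊤) →
      (∀ χ ∈ Irr D.G, D.P χ ≠ 0) →
      (∀ (U : Subgroup D.G) (ψ : U →* Eˣ),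
        DelT (D.T j) ℓ D.P (ind U (fun u => ((ψ u : Eˣ) : E)))) →
      ∀ (n : ℕ) (ρ : Representation E D.G (Fin n → E)), DelT (D.T j) ℓ D.P ρ.character)
    (E : Type) [Field E] [NumberField E] (j : k →+* E) (n : ℕ)
    (ρ : D.G →* Matrix (Fin n) (Fin n) E) : D.Deligne j ρ := by
  refine of_large (fun E _ _ j ζ hζ n ρ => ?_) E j n ρ
  obtain ⟨τ₀, hτ₀⟩ := D.exists_over j
  have hex : ∀ χ ∈ Irr D.G, ∃ ℓ, D.IsL χ ℓ := fun χ hχ =>
    exists_isL hζ τ₀ hτ₀ (fun U ψ n ρ hρ => hM _ _ D E j U ψ n ρ hρ)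
      (AddSubgroup.subset_closure hχ)
  choose! ℓ hℓ using hex
  rw [deligne_iff τ₀ hτ₀ hζ hℓ]
  have h3 := h E j ζ hζ ℓ hℓ (fun χ hχ => ⟨(hℓ χ hχ).1 1, (hℓ χ hχ).order_ne 1⟩)
    (fun χ hχ => D.P_ne hχ) (fun U ψ => ?_) n (toRep ρ)
  · have h4 : (toRep ρ).character = fun g => (ρ g).trace := funext fun g => toRep_char ρ g
    rwa [h4] at h3
  · obtain ⟨n', ρ', hρ'⟩ := exists_induced U ψ
    have h4 := (deligne_iff τ₀ hτ₀ hζ hℓ ρ').mp (hM _ _ D E j U ψ n' ρ' hρ')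
    have h5 : (fun g => (ρ' g).trace) = ind U (fun u => ((ψ u : Eˣ) : E)) := funext hρ'
    rwa [h5] at h4

end Data

end Pool.Agent.U213.KV
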