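import Mathlib
import Pool.Agent.U213.EC.OverMain
import Pool.Agent.U213.KV.Main

/-!
# Extensions `L / k` of number fields inside `F`
-/

set_option autoImplicit false
set_option linter.unusedSectionVars false

open Filter Topology

namespace Pool.Agent.U213.KV

open Pool.Agent.R389 Pool.Agent.H302R2 Pool.Agent.H541R3.ART Pool.Agent.W446.AS
open Pool.Agent.U213.EC (exists_matrix toRep toRep_char exists_decomp bc bc_trace bc_det
  mono_of_virt exists_induced extend mem_of_agree up up_map up_isDecomp prod_up up_decomp up_ind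
  up_indE preG preGHom preG_surj ker_eq exists_degQ regQ_decomp closure_inv mono_of_commutator)

/-- **Deligne's conjecture for the extension `L / k` and for `F / K`.** -/
theorem delT_up {G : Type} [Group G] [Finite G] (H : Subgroup G) {Q : Type} [Group Q] [Finite Q]
    (π : H →* Q) {E : Type} [Field E] {T : Set (E →+* ℂ)} {ℓ : (G → ℂ) → ℂ → ℂ}
    {P : (G → ℂ) → ℂ}
    {M : (Q → ℂ) → (G → ℂ) → ℕ} (hM : ∀ χ ∈ Irr Q, IsDecomp (up H π χ) (M χ)) {f : Q → E}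
    (hf : ∀ τ : E →+* ℂ, ∃ m, IsDecomp (fun q => τ (f q)) m) :
    DelT T ℓ P (up H π f) ↔
    DelT T (fun χ s => ∏ᶠ η ∈ Irr G, ℓ η s ^ M χ η) (fun χ => ∏ᶠ η ∈ Irr G, P η ^ M χ η) f := by
  have hup : ∀ τ : E →+* ℂ, (fun g => τ (up H π f g)) = up H π (fun q => τ (f q)) :=
    fun τ => funext fun g => up_map H π τ f g
  constructor
  · rintro ⟨e, he⟩
    refine ⟨e, fun τ hτ m hm => ?_⟩
    have h1 := he τ hτ _ (by rw [hup]; exact up_isDecomp H π hM hm)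
    simp only [prod_up] at h1
    exact h1
  · rintro ⟨e, he⟩
    refine ⟨e, fun τ hτ m' hm' => ?_⟩
    obtain ⟨m, hm⟩ := hf τ
    have h1 := he τ hτ m hm
    simp only [← prod_up] at h1
    rw [hup] at hm'
    have h2 := up_isDecomp H π hM hm
    have h3 : ∀ η ∈ Irr G, m' η = ∑ χ ∈ irrF Q, m χ * M χ η := by
      intro η hη
      have h4 := hm'.pr hη
      rw [h2.pr hη] at h4
      exact_mod_cast h4.symm
    have h4 : ∀ a : (G → ℂ) → ℂ, ∏ᶠ η ∈ Irr G, a η ^ m' η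
        = ∏ᶠ η ∈ Irr G, a η ^ (∑ χ ∈ irrF Q, m χ * M χ η) := by
      intro a
      refine finprod_mem_congr rfl fun η hη => ?_
      rw [h3 η hη]
    rw [h4]
    refine h1.congr fun s => ?_
    rw [← h4]

namespace Data

variable {k F₀ : Type} [Field k] [NumberField k] [Field F₀] [NumberField F₀] [Algebra k F₀]
  [IsGalois k F₀]

lemma order_up {D : Data k F₀} {ℓ : (D.G → ℂ) → ℂ → ℂ} (hℓ : ∀ χ ∈ Irr D.G, D.IsL χ (ℓ χ))
    (H : Subgroup D.G) {Q : Type} [Group Q] [Finite Q] (π : H →* Q)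
    {M : (Q → ℂ) → (D.G → ℂ) → ℕ} (hM : ∀ χ ∈ Irr Q, IsDecomp (up H π χ) (M χ))
    {f : Q → ℂ} {m : (Q → ℂ) → ℕ} (hm : IsDecomp f m) :
    D.IsL (up H π f) (fun s => ∏ᶠ χ ∈ Irr Q, (∏ᶠ η ∈ Irr D.G, ℓ η s ^ M χ η) ^ m χ) := by
  have h1 := isL_decomp hℓ (up_isDecomp H π hM hm)
  simp only [prod_up] at h1
  exact h1

/-- **The bridge** for the extension `L / k`, where `k` is the fixed field of `H` and `L` is the one of the
kernel of `π`. -/
theorem bridgeQ (hM : MonomialTheorem) (D : Data k F₀) (H : Subgroup D.G) {Q : Type}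
    [Group Q] [Finite Q] (π : H →* Q) (hπ : Function.Surjective π)
    (h : ∀ (E : Type) [Field E] [NumberField E] (j : k →+* E) (ζ : E),
      IsPrimitiveRoot ζ (Monoid.exponent Q) →
      ∀ (ℓ : (Q → ℂ) → ℂ → ℂ) (P : (Q → ℂ) → ℂ),
      (∀ χ ∈ Irr Q, MeromorphicAt (ℓ χ) 1 ∧ meromorphicOrderAt (ℓ χ) 1 ≠ ⊤) →
      (∀ χ ∈ Irr Q, P χ ≠ 0) →
      (∀ (f : Q → ℂ) (m : (Q → ℂ) → ℕ), IsDecomp f m →
        D.IsL (up H π f) (fun s => ∏ᶠ χ ∈ Irr Q, ℓ χ s ^ m χ)) →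
      (∀ (U : Subgroup Q) (ψ : U →* Eˣ),
        DelT (D.T j) ℓ P (ind U (fun u => ((ψ u : Eˣ) : E)))) →
      ∀ (n : ℕ) (ρ : Representation E Q (Fin n → E)), DelT (D.T j) ℓ P ρ.character)
    (E : Type) [Field E] [NumberField E] (j : k →+* E) (n : ℕ)
    (ρ : Q →* Matrix (Fin n) (Fin n) E)
    (m : ℕ) (σ : D.G →* Matrix (Fin m) (Fin m) E)
    (hσ : ∀ g, (σ g).trace = up H π (fun q => (ρ q).trace) g) : D.Deligne j σ := by
  classical
  -- enough roots of unity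
  have key : ∀ (E : Type) [Field E] [NumberField E] (j : k →+* E) (ζ : E),
      IsPrimitiveRoot ζ (Monoid.exponent D.G) → ∀ (n : ℕ) (ρ : Q →* Matrix (Fin n) (Fin n) E)
      (m : ℕ) (σ : D.G →* Matrix (Fin m) (Fin m) E),
      (∀ g, (σ g).trace = up H π (fun q => (ρ q).trace) g) → D.Deligne j σ := by
    intro E _ _ j ζ hζ n ρ m σ hσ
    obtain ⟨τ₀, hτ₀⟩ := D.exists_over j
    have hex : ∀ χ ∈ Irr D.G, ∃ ℓ, D.IsL χ ℓ := fun χ hχ =>
      exists_isL hζ τ₀ hτ₀ (fun U ψ n ρ hρ => hM _ _ D E j U ψ n ρ hρ)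
        (AddSubgroup.subset_closure hχ)
    choose! ℓ hℓ using hex
    have hmon : ∀ (U : Subgroup D.G) (ψ : U →* Eˣ),
        DelT (D.T j) ℓ D.P (ind U (fun u => ((ψ u : Eˣ) : E))) := by
      intro U ψ
      obtain ⟨n', ρ', hρ'⟩ := exists_induced U ψ
      have h4 := (deligne_iff τ₀ hτ₀ hζ hℓ ρ').mp (hM _ _ D E j U ψ n' ρ' hρ')
      have h5 : (fun g => (ρ' g).trace) = ind U (fun u => ((ψ u : Eˣ) : E)) := funext hρ'
      rwa [h5] at h4
    rw [deligne_iff τ₀ hτ₀ hζ hℓ]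
    have h1 : (fun g => (σ g).trace) = up H π (fun q => (ρ q).trace) := funext hσ
    rw [h1]
    have hMex : ∀ χ ∈ Irr Q, ∃ m, IsDecomp (up H π χ) m := fun χ hχ => up_decomp H π hχ
    choose! M hM' using hMex
    have hdec : ∀ (τ : E →+* ℂ), ∃ m, IsDecomp (fun q => τ (ρ q).trace) m := by
      intro τ
      obtain ⟨m, hm⟩ := exists_decomp (bc τ ρ)
      have h2 : (fun q => (bc τ ρ q).trace) = fun q => τ (ρ q).trace :=
        funext fun q => bc_trace τ ρ q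
      rw [h2] at hm
      exact ⟨m, hm⟩
    rw [delT_up H π hM' hdec]
    have hdvd : Monoid.exponent Q ∣ Monoid.exponent D.G := by
      refine Monoid.exponent_dvd_of_forall_pow_eq_one fun q => ?_
      obtain ⟨x, rfl⟩ := hπ q
      rw [← map_pow]
      have : x ^ Monoid.exponent D.G = 1 := by
        apply Subtype.ext
        rw [Subgroup.coe_pow, Monoid.pow_exponent_eq_one]
        rfl
      rw [this, map_one]
    obtain ⟨a, ha⟩ := hdvd
    have hζ' : IsPrimitiveRoot (ζ ^ a) (Monoid.exponent Q) :=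
      hζ.pow D.exp_pos (by rw [ha, mul_comm])
    have hLQ : ∀ (f : Q → ℂ) (m : (Q → ℂ) → ℕ), IsDecomp f m →
        D.IsL (up H π f) (fun s => ∏ᶠ χ ∈ Irr Q, (∏ᶠ η ∈ Irr D.G, ℓ η s ^ M χ η) ^ m χ) :=
      fun f m hm => order_up hℓ H π hM' hm
    have h3 := h E j (ζ ^ a) hζ' (fun χ s => ∏ᶠ η ∈ Irr D.G, ℓ η s ^ M χ η)
      (fun χ => ∏ᶠ η ∈ Irr D.G, D.P η ^ M χ η) ?_ ?_ hLQ ?_ n (toRep ρ)
    · have h4 : (toRep ρ).character = fun g => (ρ g).trace := funext fun g => toRep_char ρ g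
      rwa [h4] at h3
    · intro χ hχ
      have h4 := isL_decomp hℓ (hM' χ hχ)
      exact ⟨h4.1 1, h4.order_ne 1⟩
    · intro χ hχ
      rw [finprod_irr (fun η => D.P η ^ M χ η)]
      exact Finset.prod_ne_zero_iff.mpr fun η hη => pow_ne_zero _ (D.P_ne (mem_irrF.mp hη))
    · intro U ψ
      have h4 : ∀ τ : E →+* ℂ, ∃ m, IsDecomp (fun q => τ (ind U (fun u => ((ψ u : Eˣ) : E)) q)) m := by
        intro τ
        obtain ⟨m, hm⟩ := ind_isDecomp U ((Units.map τ.toMonoidHom).comp ψ)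
        refine ⟨m, ?_⟩
        have h5 : (fun q => τ (ind U (fun u => ((ψ u : Eˣ) : E)) q))
            = ind U (fun h => ((((Units.map τ.toMonoidHom).comp ψ) h : ℂˣ) : ℂ)) := by
          funext g
          rw [ind_map]
          rfl
        rw [h5]
        exact hm
      rw [← delT_up H π hM' h4, up_indE H π hπ τ₀]
      exact hmon _ _
  have : NeZero (Monoid.exponent D.G) := ⟨D.exp_pos.ne'⟩
  have hN : NumberField (CyclotomicField (Monoid.exponent D.G) E) :=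
    IsCyclotomicExtension.numberField {Monoid.exponent D.G} E _
  let E' := CyclotomicField (Monoid.exponent D.G) E
  refine deligne_descend (E' := E') σ
    (key E' _ _ (IsCyclotomicExtension.zeta_spec (Monoid.exponent D.G) E _) n
      ((algebraMap E E').mapMatrix.toMonoidHom.comp ρ) m _ fun g => ?_)
  have h1 : ∀ {X : Type} [Group X] {l : ℕ} (r : X →* Matrix (Fin l) (Fin l) E) (x : X),
      (((algebraMap E E').mapMatrix.toMonoidHom.comp r) x).trace = algebraMap E E' (r x).trace := by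
    intro X _ l r x
    change ((r x).map (algebraMap E E')).trace = _
    rw [Matrix.trace, Matrix.trace, map_sum]
    rfl
  simp only [h1]
  rw [hσ, up_map]

/-- **Order at most one** over the field `L`. -/
theorem over_one (hM : MonomialTheorem) (D : Data k F₀)
    (H : Subgroup D.G) {Q : Type} [Group Q] [Finite Q] (π : H →* Q) (hπ : Function.Surjective π)
    {ℓ₀ : ℂ → ℂ} (hℓ₀ : D.IsL (ind (π.ker.map H.subtype) (fun _ => 1)) ℓ₀)
    (h1 : meromorphicOrderAt ℓ₀ 1 ≤ 1)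
    (E : Type) [Field E] [NumberField E] (j : k →+* E) (n : ℕ)
    (ρ : Q →* Matrix (Fin n) (Fin n) E) (m : ℕ) (σ : D.G →* Matrix (Fin m) (Fin m) E)
    (hσ : ∀ g, (σ g).trace = ind H (fun h => (ρ (π h)).trace) g) : D.Deligne j σ := by
  classical
  refine bridgeQ hM D H π hπ (fun E _ _ j ζ hζ ℓ P hL hP hup hmon n ρ => ?_) E j n ρ m σ hσ
  obtain ⟨τ₀, hτ₀⟩ := D.exists_over j
  obtain ⟨deg, hdeg⟩ := exists_degQ (Q := Q)
  rw [delT_iff (D.conj_over j)]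
  have hτ₀' : τ₀ ∈ D.T j := hτ₀
  have hQ : IsPGroup 2 (Q ⧸ (⊤ : Subgroup Q)) := by
    intro q
    have := QuotientGroup.subsingleton_quotient_top (G := Q)
    exact ⟨0, Subsingleton.elim _ _⟩
  refine main (L := Lc (D.T j) ℓ) (P := Pc (D.T j) P) (c := 1) hζ (fun τ => Lc_ok hL τ)
    (fun τ => Pc_ok hP τ) (fun U ψ _ => (delT_iff (D.conj_over j)).mp (hmon U ψ)) τ₀ hdeg
    Nat.prime_two ⊤ hQ 1 (le_max_of_le_left ?_) ρ
  simp only [Lc_mem hτ₀']
  have h3 := hup _ _ (regQ_decomp hdeg)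
  rw [ker_eq H π hπ] at h3
  rw [meromorphicOrderAt_congr (h3.unique hℓ₀ 1)]
  exact h1

/-- **Order at most two** over the field `L`. -/
theorem over_two (hM : MonomialTheorem) (D : Data k F₀)
    (H : Subgroup D.G) {Q : Type} [Group Q] [Finite Q] (π : H →* Q) (hπ : Function.Surjective π)
    {ℓ₀ : ℂ → ℂ} (hℓ₀ : D.IsL (ind (π.ker.map H.subtype) (fun _ => 1)) ℓ₀)
    (h2 : meromorphicOrderAt ℓ₀ 1 ≤ 2)
    (hquat : ∀ (U : Subgroup Q) (f : U →* QuaternionGroup 2), Function.Surjective f →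
      ∀ ℓ, D.IsL (ind H (fun h => ind U (fun u => quatChar (f u)) (π h))) ℓ →
        meromorphicOrderAt ℓ 1 ≠ 1)
    (E : Type) [Field E] [NumberField E] (j : k →+* E) (n : ℕ)
    (ρ : Q →* Matrix (Fin n) (Fin n) E) (m : ℕ) (σ : D.G →* Matrix (Fin m) (Fin m) E)
    (hσ : ∀ g, (σ g).trace = ind H (fun h => (ρ (π h)).trace) g) : D.Deligne j σ := by
  classical
  refine bridgeQ hM D H π hπ (fun E _ _ j ζ hζ ℓ P hL hP hup hmon n ρ => ?_) E j n ρ m σ hσ
  obtain ⟨τ₀, hτ₀⟩ := D.exists_over j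
  obtain ⟨deg, hdeg⟩ := exists_degQ (Q := Q)
  rw [delT_iff (D.conj_over j)]
  have hτ₀' : τ₀ ∈ D.T j := hτ₀
  refine main_two (L := Lc (D.T j) ℓ) (P := Pc (D.T j) P) (c := 1) hζ (fun τ => Lc_ok hL τ)
    (fun τ => Pc_ok hP τ) (fun U ψ => (delT_iff (D.conj_over j)).mp (hmon U ψ)) τ₀ hdeg ?_ ?_ ρ
  · simp only [Lc_mem hτ₀']
    have h3 := hup _ _ (regQ_decomp hdeg)
    rw [ker_eq H π hπ] at h3
    rw [meromorphicOrderAt_congr (h3.unique hℓ₀ 1)]
    exact h2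
  · intro U f hf m hm
    simp only [Lc_mem hτ₀']
    exact hquat U f hf _ (hup _ _ hm)

/-- **Small growth** in the extension `L / k`. -/
theorem over_small (hM : MonomialTheorem) (D : Data k F₀)
    (H : Subgroup D.G) {Q : Type} [Group Q] [Finite Q] (π : H →* Q) (hπ : Function.Surjective π)
    (N : Subgroup Q) [N.Normal] (hN : Group.IsSolvable N)
    (hmono : ∀ χ ∈ Irr Q, (∀ k ∈ ⁅N, N⁆, χ k = χ 1) →
      ∃ (U : Subgroup Q) (ψ : U →* ℂˣ), χ = ind U (fun u => ((ψ u : ℂˣ) : ℂ)))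
    (lam : N →* ℂˣ) {ℓ₀ ℓ₁ : ℂ → ℂ} (hℓ₀ : D.IsL (ind (π.ker.map H.subtype) (fun _ => 1)) ℓ₀)
    (hℓ₁ : D.IsL (ind H (fun h => ind N (fun x => ((lam x : ℂˣ) : ℂ)) (π h))) ℓ₁)
    (hz : ∀ p : ℕ, p.Prime → p ∣ Nat.card N →
      meromorphicOrderAt ℓ₀ 1 < meromorphicOrderAt ℓ₁ 1 + p)
    (E : Type) [Field E] [NumberField E] (j : k →+* E) (n : ℕ)
    (ρ : Q →* Matrix (Fin n) (Fin n) E) (m : ℕ) (σ : D.G →* Matrix (Fin m) (Fin m) E)
    (hσ : ∀ g, (σ g).trace = ind H (fun h => (ρ (π h)).trace) g) : D.Deligne j σ := by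
  classical
  refine bridgeQ hM D H π hπ (fun E _ _ j ζ hζ ℓ P hL hP hup hmon n ρ => ?_) E j n ρ m σ hσ
  obtain ⟨τ₀, hτ₀⟩ := D.exists_over j
  obtain ⟨deg, hdeg⟩ := exists_degQ (Q := Q)
  obtain ⟨m, hm⟩ := ind_isDecomp N lam
  rw [delT_iff (D.conj_over j)]
  have hτ₀' : τ₀ ∈ D.T j := hτ₀
  have hmon' : ∀ (U : Subgroup Q) (ψ : U →* Eˣ), R389.Deligne (Lc (D.T j) ℓ) (Pc (D.T j) P) 1
      (ind U (fun u => ((ψ u : Eˣ) : E))) :=
    fun U ψ => (delT_iff (D.conj_over j)).mp (hmon U ψ)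
  refine main_small (L := Lc (D.T j) ℓ) (P := Pc (D.T j) P) (c := 1) hζ (fun τ => Lc_ok hL τ)
    (fun τ => Pc_ok hP τ) (fun U ψ _ => hmon' U ψ) τ₀ hdeg N hN lam hm ?_ ?_ ρ
  · intro p hp hd
    simp only [Lc_mem hτ₀']
    have h3 := hup _ _ (regQ_decomp hdeg)
    rw [ker_eq H π hπ] at h3
    have h4 := hup _ _ hm
    rw [meromorphicOrderAt_congr (h3.unique hℓ₀ 1), meromorphicOrderAt_congr (h4.unique hℓ₁ 1)]
    exact hz p hp hd
  · intro W _ _ _ σ hσ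
    have hσ' : ∀ k ∈ ⁅N, N⁆, σ k = 1 := fun k hk => LinearMap.ext fun v => hσ k hk v
    have hf := base_change τ₀ σ
    have h1 := closure_inv ⁅N, N⁆ hf (fun g k hk => by
      change τ₀ (LinearMap.trace E W (σ (g * k))) = τ₀ (LinearMap.trace E W (σ g))
      rw [map_mul, hσ' k hk, mul_one])
    have h2 : AddSubmonoid.closure {χ : Q → ℂ | χ ∈ Irr Q ∧ ∀ k ∈ ⁅N, N⁆, χ k = χ 1}
        ≤ MonPA Q := by
      rw [AddSubmonoid.closure_le]
      rintro χ ⟨hχ, h3⟩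
      exact AddSubmonoid.subset_closure (hmono χ hχ h3)
    obtain ⟨fa, ea, ha1, ha2⟩ := monA_del (L := Lc (D.T j) ℓ) (P := Pc (D.T j) P) (c := 1)
      hζ (fun τ => Lc_ok hL τ) (fun τ => Pc_ok hP τ) hmon' τ₀ (h2 h1)
    have h3 : σ.character = fa := by
      funext g
      apply τ₀.injective
      rw [ha1]
    rw [h3]
    exact ha2.deligne

/-- **Small growth** in a solvable extension `L / k`. -/
theorem over_solvable (hM : MonomialTheorem) (D : Data k F₀)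
    (H : Subgroup D.G) {Q : Type} [Group Q] [Finite Q] (π : H →* Q) (hπ : Function.Surjective π)
    (hQ : Group.IsSolvable Q) (lam : Q →* ℂˣ) {ℓ₀ ℓ₁ : ℂ → ℂ}
    (hℓ₀ : D.IsL (ind (π.ker.map H.subtype) (fun _ => 1)) ℓ₀)
    (hℓ₁ : D.IsL (ind H (fun h => ((lam (π h) : ℂˣ) : ℂ))) ℓ₁)
    (hz : ∀ p : ℕ, p.Prime → p ∣ Nat.card Q →
      meromorphicOrderAt ℓ₀ 1 < meromorphicOrderAt ℓ₁ 1 + p)
    (E : Type) [Field E] [NumberField E] (j : k →+* E) (n : ℕ)
    (ρ : Q →* Matrix (Fin n) (Fin n) E) (m : ℕ) (σ : D.G →* Matrix (Fin m) (Fin m) E)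
    (hσ : ∀ g, (σ g).trace = ind H (fun h => (ρ (π h)).trace) g) : D.Deligne j σ := by
  classical
  have hN : Group.IsSolvable (⊤ : Subgroup Q) := inferInstance
  have h1 : ind (⊤ : Subgroup Q) (fun x => (((lam.comp (⊤ : Subgroup Q).subtype) x : ℂˣ) : ℂ))
      = fun q => ((lam q : ℂˣ) : ℂ) := by
    have : Fintype Q := Fintype.ofFinite Q
    funext g
    rw [ind_eq]
    have h2 : ∀ x : Q, ext (⊤ : Subgroup Q)
        (fun x => (((lam.comp (⊤ : Subgroup Q).subtype) x : ℂˣ) : ℂ)) (x⁻¹ * g * x)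
        = ((lam g : ℂˣ) : ℂ) := by
      intro x
      rw [ext_mem _ _ (Subgroup.mem_top _)]
      change ((lam (x⁻¹ * g * x) : ℂˣ) : ℂ) = _
      rw [map_mul, map_mul, map_inv, mul_comm, ← mul_assoc, mul_inv_cancel, one_mul]
    rw [Finset.sum_congr rfl (fun x _ => h2 x), Finset.sum_const, Finset.card_univ, nsmul_eq_mul,
      Subgroup.card_top, ← Nat.card_eq_fintype_card, ← mul_assoc, inv_mul_cancel₀ card_ne, one_mul]
  refine over_small hM D H π hπ ⊤ hN (fun χ hχ h => ?_)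
    (lam.comp (⊤ : Subgroup Q).subtype) hℓ₀ (by rw [h1]; exact hℓ₁)
    (fun p hp hd => hz p hp (by rwa [Subgroup.card_top] at hd)) E j n ρ m σ hσ
  exact mono_of_commutator hχ h

end Data

end Pool.Agent.U213.KV
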