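import Mathlib
import Pool.Agent.U213.KV.Over

/-!
# The motive over `ℚ` with rational coefficients
-/

set_option autoImplicit false
set_option linter.unusedSectionVars false

open Filter Topology

namespace Pool.Agent.U213.KV

namespace Data

variable {k F₀ : Type} [Field k] [NumberField k] [Field F₀] [NumberField F₀] [Algebra k F₀]
  [IsGalois k F₀]

/-- **Deligne's conjecture for the motive over `ℚ` with rational coefficients** which is the restriction of
scalars of `φ ⊗ σ` from `K` to `ℚ`, with the coefficients in `E` forgotten: its L-function at `s = 1` is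
the product of the `L(φ ⊗ τσ, 1) * conj L(φ ⊗ τσ, 1)` over the embeddings `τ` of `E` in `ℂ` over `K`, and
its period is the product of the `P_τ * conj P_τ` for the periods `P_τ` of `τσ`. The quotient is
rational. -/
def Rational (D : Data k F₀) {E : Type} [Field E] (j : k →+* E) {m : ℕ}
    (σ : (F₀ ≃ₐ[k] F₀) →* Matrix (Fin m) (Fin m) E) : Prop :=
  ∃ q : ℚ, ∀ ℓ : (E →+* ℂ) → ℂ → ℂ,
    (∀ τ, D.Over j τ → D.IsL (fun g => τ (σ g).trace) (ℓ τ)) →
    Tendsto (fun s => ∏ᶠ τ ∈ {τ | D.Over j τ}, ℓ τ s * starRingEnd ℂ (ℓ τ s)) (𝓝[≠] 1)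
      (𝓝 (q * ∏ᶠ τ ∈ {τ | D.Over j τ}, D.period (τ.mapMatrix.toMonoidHom.comp σ) *
        starRingEnd ℂ (D.period (τ.mapMatrix.toMonoidHom.comp σ))))

theorem rational_of_deligne (D : Data k F₀) {E : Type} [Field E] [NumberField E] (j : k →+* E)
    {m : ℕ} (σ : (F₀ ≃ₐ[k] F₀) →* Matrix (Fin m) (Fin m) E) (h : D.Deligne j σ) :
    D.Rational j σ := by
  classical
  obtain ⟨e, he⟩ := h
  -- the embeddings over `K` and their conjugates
  let A : Finset (E →+* ℂ) := Finset.univ.filter fun τ => D.Over j τ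
  have hA : ∀ f : (E →+* ℂ) → ℂ, ∏ᶠ τ ∈ {τ | D.Over j τ}, f τ = ∏ τ ∈ A, f τ := by
    intro f
    rw [finprod_mem_eq_finite_toFinset_prod _ (Set.toFinite _)]
    refine Finset.prod_congr ?_ fun _ _ => rfl
    ext τ
    simp [A]
  have hconj : ∀ τ : E →+* ℂ, D.Over j τ → ¬ D.Over j ((starRingEnd ℂ).comp τ) := by
    intro τ h1 h2
    obtain ⟨a, ha, -⟩ := D.cm
    apply ha
    have h3 : starRingEnd ℂ (τ (j a)) = D.ι₀ a := h2 a
    rw [h1 a] at h3
    exact Complex.conj_eq_iff_im.mp h3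
  have hcc : ∀ τ : E →+* ℂ, (starRingEnd ℂ).comp ((starRingEnd ℂ).comp τ) = τ := by
    intro τ
    ext x
    simp
  have hnorm : ((Algebra.norm ℚ e : ℚ) : ℂ) = ∏ τ ∈ A, (τ e * starRingEnd ℂ (τ e)) := by
    have h1 : algebraMap ℚ ℂ (Algebra.norm ℚ e) = ∏ τ : E →+* ℂ, τ e := by
      rw [Algebra.norm_eq_prod_embeddings ℚ ℂ e]
      exact Fintype.prod_equiv (RingHom.equivRatAlgHom E ℂ).symm _ _ fun τ => rfl
    rw [eq_ratCast] at h1
    rw [h1, Finset.prod_mul_distrib, ← Finset.prod_filter_mul_prod_filter_not Finset.univ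
      (fun τ => D.Over j τ)]
    congr 1
    refine Finset.prod_nbij' (fun τ => (starRingEnd ℂ).comp τ) (fun τ => (starRingEnd ℂ).comp τ)
      (fun τ hτ => ?_) (fun τ hτ => ?_) (fun τ _ => hcc τ) (fun τ _ => hcc τ) (fun τ _ => ?_)
    · exact Finset.mem_filter.mpr ⟨Finset.mem_univ _,
        D.conj_over j τ (Finset.mem_filter.mp hτ).2⟩
    · exact Finset.mem_filter.mpr ⟨Finset.mem_univ _, hconj τ (Finset.mem_filter.mp hτ).2⟩
    · simp
  refine ⟨Algebra.norm ℚ e, fun ℓ hℓ => ?_⟩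
  rw [hA, hnorm, ← Finset.prod_mul_distrib]
  simp only [hA]
  refine tendsto_finset_prod _ fun τ hτ => ?_
  have hτ' : D.Over j τ := (Finset.mem_filter.mp hτ).2
  obtain ⟨ℓ', h1, h2⟩ := he τ hτ'
  have h3 : Tendsto (ℓ τ) (𝓝[≠] 1)
      (𝓝 (τ e * D.period (τ.mapMatrix.toMonoidHom.comp σ))) :=
    h2.congr' (h1.unique (hℓ τ hτ') 1)
  have h4 := h3.mul ((Complex.continuous_conj.tendsto _).comp h3)
  have h5 : τ e * D.period (τ.mapMatrix.toMonoidHom.comp σ) *
      starRingEnd ℂ (τ e * D.period (τ.mapMatrix.toMonoidHom.comp σ))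
      = τ e * starRingEnd ℂ (τ e) * (D.period (τ.mapMatrix.toMonoidHom.comp σ) *
        starRingEnd ℂ (D.period (τ.mapMatrix.toMonoidHom.comp σ))) := by
    rw [map_mul]; ring
  rw [h5] at h4
  exact h4

end Data

end Pool.Agent.U213.KV
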